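import Pool.Agent.Helper66.NO.Quot
import Pool.Agent.Helper52.NO.Ext

/-!
# The local data of the quotient by a central 2-subgroup
-/

set_option autoImplicit false
open scoped BigOperators MonoidAlgebra
open Classical

namespace Pool.Agent.Helper66.NO

open Pool.Agent.Helper36.NB Pool.Agent.Helper44.S3 Pool.Agent.Helper32.ND
open Pool.Agent.Helper32.NO

/-- **P4**: the local data of the quotient by a central `2`-subgroup `Z ≤ D` -/
theorem locK_quot {G : Type} [Group G] [Fintype G] {k : Type} [Field k] [IsAlgClosed k] [CharP k 2]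
    (D Z : Subgroup G) [Z.Normal]
    (hZ : ∀ z ∈ Z, ∀ g, z * g = g * z) (hZD : Z ≤ D) (hD : IsPGroup 2 D) (q : MonoidAlgebra k G)
    (_hq : q * q = q) (hqD : Cen D q) (lam : MonoidAlgebra k G →ₗ[k] k)
    (hlam : ∀ a b, lam (a * b) = lam (b * a)) (hlq : lam q ≠ 0)
    (hnil : ∀ a, IsNilpotent a → lam a = 0) (h : LocK D q) :
    LocK (D.map (QuotientGroup.mk' Z)) (prR k Z q) :=
  locK_quot_of (fun φ h1 h2 h3 h4 b hb S => Pool.Agent.Helper52.NO.ext φ h1 h2 h3 h4 b hb S)
    D Z hZ hZD hD q hqD lam hlam hlq hnil h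

end Pool.Agent.Helper66.NO
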