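import Pool.Agent.Helper32.NO.Defs

/-!
# The local data of the quotient by a central 2-subgroup
-/

set_option autoImplicit false
open scoped BigOperators MonoidAlgebra
open Classical

namespace Pool.Agent.Helper66.NO

open Pool.Agent.Helper36.NB Pool.Agent.Helper44.S3 Pool.Agent.Helper32.ND
open Pool.Agent.Helper32.NO

/-! ### Nilpotent elements -/

theorem nil_add {R : Type} [Ring R] (c a b : R) (hc : ∀ x, c * x = x * c) (n : ℕ)
    (hn : c ^ n = 0) (ha : IsNilpotent a) : IsNilpotent (a + c * b) := by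
  obtain ⟨m, hm⟩ := ha
  have key : ∀ m : ℕ, ∃ w, (a + c * b) ^ m = a ^ m + c * w := by
    intro m
    induction m with
    | zero => exact ⟨0, by simp⟩
    | succ m ih =>
      obtain ⟨w, hw⟩ := ih
      refine ⟨a ^ m * b + w * (a + c * b), ?_⟩
      have h1 : a ^ m * (c * b) = c * (a ^ m * b) := by
        rw [← mul_assoc, ← hc, mul_assoc]
      calc (a + c * b) ^ (m + 1) = (a ^ m + c * w) * (a + c * b) := by rw [pow_succ, hw]
        _ = a ^ m * a + a ^ m * (c * b) + c * w * (a + c * b) := by rw [add_mul, mul_add]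
        _ = a ^ (m + 1) + c * (a ^ m * b + w * (a + c * b)) := by
            rw [h1, ← pow_succ, mul_assoc c w (a + c * b), add_assoc, ← mul_add]
  obtain ⟨w, hw⟩ := key m
  rw [hm, zero_add] at hw
  refine ⟨m * n, ?_⟩
  rw [pow_mul, hw, (show Commute c w from hc w).mul_pow, hn, zero_mul]

theorem nil_sum {R ι : Type} [Ring R] (s : Finset ι) (c b : ι → R)
    (hc : ∀ i, ∀ x, c i * x = x * c i) (hn : ∀ i, ∃ n : ℕ, c i ^ n = 0) :
    IsNilpotent (∑ i ∈ s, c i * b i) := by
  induction s using Finset.induction_on with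
  | empty => rw [Finset.sum_empty]; exact IsNilpotent.zero
  | insert i s hi ih =>
    rw [Finset.sum_insert hi, add_comm]
    obtain ⟨n, hn'⟩ := hn i
    exact nil_add (c i) _ (b i) (hc i) n hn' ih

section

variable {k : Type} [Field k] {G : Type} [Group G]

theorem prR_single (R : Type) [CommRing R] (Z : Subgroup G) [Z.Normal] (g : G) (r : R) :
    prR R Z (MonoidAlgebra.single g r) = MonoidAlgebra.single (g : G ⧸ Z) r := by
  unfold prR
  rw [MonoidAlgebra.mapDomainRingHom_apply, MonoidAlgebra.mapDomain_single]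
  rfl

theorem prR_el (R : Type) [CommRing R] (Z : Subgroup G) [Z.Normal] (g : G) :
    prR R Z (el R g) = el R (g : G ⧸ Z) := prR_single R Z g 1

variable [Fintype G]

theorem eq_sum_el (a : MonoidAlgebra k G) : a = ∑ g : G, a.coeff g • el k g := by
  conv_lhs => rw [G1aux.eq_sum a]
  refine Finset.sum_congr rfl fun g _ => ?_
  rw [el, MonoidAlgebra.smul_single, smul_eq_mul, mul_one]

theorem prR_coeff (Z : Subgroup G) [Z.Normal] (a : MonoidAlgebra k G) (r : G ⧸ Z) :
    (prR k Z a).coeff r = ∑ g : G, if (g : G ⧸ Z) = r then a.coeff g else 0 := by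
  conv_lhs => rw [G1aux.eq_sum a]
  rw [map_sum, MonoidAlgebra.coeff_sum, Finsupp.finsetSum_apply]
  refine Finset.sum_congr rfl fun g _ => ?_
  rw [prR_single, MonoidAlgebra.coeff_single, Finsupp.single_apply]

/-- the kernel of the projection consists of nilpotent elements -/
theorem ker_nil [CharP k 2] (Z : Subgroup G) [Z.Normal] (hZ : ∀ z ∈ Z, ∀ g, z * g = g * z)
    (hZ2 : IsPGroup 2 Z) (a : MonoidAlgebra k G) (ha : prR k Z a = 0) : IsNilpotent a := by
  have : Fintype (G ⧸ Z) := Fintype.ofFinite _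
  have : CharP (MonoidAlgebra k G) 2 :=
    charP_of_injective_algebraMap (algebraMap k (MonoidAlgebra k G)).injective 2
  have hmk : ∀ g : G, ((Quotient.out (g : G ⧸ Z) : G) : G ⧸ Z) = (g : G ⧸ Z) := fun g =>
    QuotientGroup.out_eq' _
  have hz : ∀ g : G, g * (Quotient.out (g : G ⧸ Z))⁻¹ ∈ Z := by
    intro g
    rw [← QuotientGroup.eq_one_iff, QuotientGroup.mk_mul, QuotientGroup.mk_inv, hmk,
      mul_inv_cancel]
  have h0 : ∑ g : G, a.coeff g • el k (Quotient.out (g : G ⧸ Z) : G) = 0 := by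
    have h1 : ∀ g : G, a.coeff g • el k (Quotient.out (g : G ⧸ Z) : G) =
        ∑ r : G ⧸ Z, if (g : G ⧸ Z) = r then a.coeff g • el k (Quotient.out r : G) else 0 := by
      intro g
      rw [Finset.sum_ite_eq, if_pos (Finset.mem_univ _)]
    rw [Finset.sum_congr rfl fun g _ => h1 g, Finset.sum_comm]
    refine Finset.sum_eq_zero fun r _ => ?_
    have h2 : ∀ g : G, (if (g : G ⧸ Z) = r then a.coeff g • el k (Quotient.out r : G) else 0) =
        (if (g : G ⧸ Z) = r then a.coeff g else 0) • el k (Quotient.out r : G) := by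
      intro g
      split_ifs
      · rfl
      · rw [zero_smul]
    rw [Finset.sum_congr rfl fun g _ => h2 g, ← Finset.sum_smul, ← prR_coeff, ha]
    simp
  have h3 : a = ∑ g : G, (el k (g * (Quotient.out (g : G ⧸ Z))⁻¹) - 1) *
      (a.coeff g • el k (Quotient.out (g : G ⧸ Z) : G)) := by
    have h4 : ∀ g : G, (el k (g * (Quotient.out (g : G ⧸ Z))⁻¹) - 1) *
        (a.coeff g • el k (Quotient.out (g : G ⧸ Z) : G)) =
        a.coeff g • el k g - a.coeff g • el k (Quotient.out (g : G ⧸ Z) : G) := by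
      intro g
      rw [sub_mul, one_mul, mul_smul_comm, ← el_mul, inv_mul_cancel_right]
    rw [Finset.sum_congr rfl fun g _ => h4 g, Finset.sum_sub_distrib, h0, sub_zero]
    exact eq_sum_el a
  rw [h3]
  refine nil_sum _ _ _ (fun g x => ?_) (fun g => ?_)
  · rw [sub_mul, mul_sub, one_mul, mul_one]
    congr 1
    exact D3aux.comm_of_supp Z x (el k (g * (Quotient.out (g : G ⧸ Z))⁻¹)) (fun z hz' => by
      rw [D3aux.comm_iff]
      intro y
      congr 1
      rw [mul_assoc, ← hZ z hz' y, inv_mul_cancel_left]) (fun y hy => by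
      rw [el_coeff] at hy
      have : g * (Quotient.out (g : G ⧸ Z))⁻¹ = y := by
        by_contra h
        exact hy (if_neg h)
      rw [← this]
      exact hz g)
  · obtain ⟨n, hn⟩ := hZ2 ⟨_, hz g⟩
    refine ⟨2 ^ n, ?_⟩
    rw [sub_pow_char_pow_of_commute _ _ (Commute.one_right _), one_pow]
    have h5 : ∀ (m : ℕ) (x : G), el k x ^ m = el k (x ^ m) := by
      intro m x
      induction m with
      | zero => rw [pow_zero, pow_zero, el_one]
      | succ m ih => rw [pow_succ, pow_succ, ih, el_mul]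
    rw [h5]
    have h6 := congrArg Subtype.val hn
    have h7 : (g * (Quotient.out (g : G ⧸ Z))⁻¹) ^ 2 ^ n = 1 := h6
    rw [h7, el_one, sub_self]

end

/-! ### The homomorphism between the centralisers -/

section

variable {k : Type} [Field k] {G : Type} [Group G]

/-- the restriction of the projection to a subgroup -/
def phi (Z : Subgroup G) [Z.Normal] (H : Subgroup G) (H' : Subgroup (G ⧸ Z))
    (h : ∀ x ∈ H, (x : G ⧸ Z) ∈ H') : H →* H' :=
  ((QuotientGroup.mk' Z).comp H.subtype).codRestrict H' (fun x => h x x.2)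

theorem phi_coe (Z : Subgroup G) [Z.Normal] (H : Subgroup G) (H' : Subgroup (G ⧸ Z))
    (h : ∀ x ∈ H, (x : G ⧸ Z) ∈ H') (x : H) :
    ((phi Z H H' h x : H') : G ⧸ Z) = ((x : G) : G ⧸ Z) := rfl

theorem incl_phi (Z : Subgroup G) [Z.Normal] (H : Subgroup G) (H' : Subgroup (G ⧸ Z))
    (h : ∀ x ∈ H, (x : G ⧸ Z) ∈ H') (x : MonoidAlgebra k H) :
    incl k H' (MonoidAlgebra.mapDomain (phi Z H H' h) x) = prR k Z (incl k H x) := by
  induction x using MonoidAlgebra.induction_linear with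
  | zero => simp
  | add x y hx hy => rw [MonoidAlgebra.mapDomain_add, map_add, map_add, map_add, hx, hy]
  | single c r =>
    rw [MonoidAlgebra.mapDomain_single]
    have h1 : ∀ (H : Subgroup G) (c : H) (r : k), incl k H (MonoidAlgebra.single c r) =
        MonoidAlgebra.single (c : G) r := fun H c r => by simp [incl]
    have h2 : ∀ (H : Subgroup (G ⧸ Z)) (c : H) (r : k), incl k H (MonoidAlgebra.single c r) =
        MonoidAlgebra.single (c : G ⧸ Z) r := fun H c r => by simp [incl]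
    rw [h1, h2, prR_single]
    rfl

/-- the coefficients outside the centraliser cancel -/
theorem res_prR [CharP k 2] [Fintype G] (Z : Subgroup G) [Z.Normal] (Q : Subgroup G) (hQ : IsPGroup 2 Q)
    (q : MonoidAlgebra k G) (hq : Cen Q q) (H' : Subgroup (G ⧸ Z))
    (hH : ∀ r ∈ H', ∀ u ∈ Q, (u : G ⧸ Z) * r = r * (u : G ⧸ Z))
    (h : ∀ x ∈ Subgroup.centralizer (Q : Set G), (x : G ⧸ Z) ∈ H') :
    res H' (prR k Z q) = MonoidAlgebra.mapDomain (phi Z _ H' h)
      (res (Subgroup.centralizer (Q : Set G)) q) := by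
  have : Fintype (G ⧸ Z) := Fintype.ofFinite _
  ext r
  rw [D3aux.res_coeff, prR_coeff]
  have h1 : (MonoidAlgebra.mapDomain (phi Z _ H' h)
      (res (Subgroup.centralizer (Q : Set G)) q)).coeff r =
      (prR k Z (D3aux.br Q q)).coeff (r : G ⧸ Z) := by
    rw [D3aux.br, ← incl_phi Z _ H' h, D3aux.incl_coeff_mem H' _ (r : G ⧸ Z) r.2]
  rw [h1, prR_coeff]
  have hF : ∀ p ∈ Q, ∀ x : G, (if ((p * x * p⁻¹ : G) : G ⧸ Z) = r then
      q.coeff (p * x * p⁻¹) else 0) = if (x : G ⧸ Z) = r then q.coeff x else 0 := by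
    intro p hp x
    rw [G1aux.coeff_conj p q (hq p hp) x]
    refine if_congr ?_ rfl rfl
    rw [QuotientGroup.mk_mul, QuotientGroup.mk_mul, QuotientGroup.mk_inv]
    have h2 := hH r r.2 p hp
    constructor
    · intro h3
      have h4 : (x : G ⧸ Z) = (p : G ⧸ Z)⁻¹ * ((p : G ⧸ Z) * x * (p : G ⧸ Z)⁻¹) * p := by group
      rw [h4, h3, mul_assoc, ← h2, inv_mul_cancel_left]
    · intro h3
      rw [h3, h2, mul_inv_cancel_right]
  rw [G1aux.conj_sum Q hQ (fun x => if (x : G ⧸ Z) = r then q.coeff x else 0) hF]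
  have h5 : ∀ g : G, (if (g : G ⧸ Z) = r then (D3aux.br Q q).coeff g else 0) =
      if g ∈ Subgroup.centralizer (Q : Set G) then
        (if (g : G ⧸ Z) = r then q.coeff g else 0) else 0 := by
    intro g
    rw [D3aux.br_coeff]
    split_ifs <;> rfl
  have h6 : ∑ g : G, (if g ∈ Subgroup.centralizer (Q : Set G) then
      (if (g : G ⧸ Z) = r then q.coeff g else 0) else 0) =
      ∑ x : Subgroup.centralizer (Q : Set G), if ((x : G) : G ⧸ Z) = r then q.coeff x else 0 := by
    rw [← Finset.sum_filter]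
    exact Finset.sum_subtype (p := fun g : G => g ∈ Subgroup.centralizer (Q : Set G))
      (Finset.univ.filter (fun g : G => g ∈ Subgroup.centralizer (Q : Set G))) (by simp)
      (fun g : G => if (g : G ⧸ Z) = r then q.coeff g else 0)
  rw [Finset.sum_congr rfl fun g _ => h5 g, h6]

/-- a lift of odd order -/
theorem exists_odd_lift [Fintype G] (Z : Subgroup G) [Z.Normal] (r : G ⧸ Z) (hr : Odd (orderOf r)) :
    ∃ g : G, (g : G ⧸ Z) = r ∧ Odd (orderOf g) := by
  obtain ⟨g0, rfl⟩ := QuotientGroup.mk_surjective r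
  obtain ⟨a, b, hb, hab⟩ := Nat.exists_eq_two_pow_mul_odd (n := orderOf g0)
    (orderOf_pos g0).ne'
  have hcop : Nat.Coprime (2 ^ a) (orderOf (g0 : G ⧸ Z)) :=
    Nat.Coprime.pow_left a (Nat.coprime_two_left.2 hr)
  obtain ⟨c, hc⟩ := exists_pow_eq_self_of_coprime (x := (g0 : G ⧸ Z)) (n := 2 ^ a) hcop
  refine ⟨(g0 ^ 2 ^ a) ^ c, ?_, ?_⟩
  · rw [QuotientGroup.mk_pow, QuotientGroup.mk_pow]
    exact hc
  · have h1 : ((g0 ^ 2 ^ a) ^ c) ^ b = 1 := by
      rw [← pow_mul, ← pow_mul, mul_comm c b, ← mul_assoc, ← hab, pow_mul, pow_orderOf_eq_one,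
        one_pow]
    exact Odd.of_dvd_nat hb (orderOf_dvd_of_pow_eq_one h1)

/-- an element of odd order which commutes with `Q` modulo a central `2`-group commutes
with `Q` -/
theorem comm_of_odd (Z : Subgroup G) [Z.Normal] (hZ : ∀ z ∈ Z, ∀ g, z * g = g * z)
    (hZ2 : IsPGroup 2 Z) (g u : G) (hg : Odd (orderOf g))
    (h : (u : G ⧸ Z) * g = g * u) : u * g = g * u := by
  have hc : g * u * g⁻¹ * u⁻¹ ∈ Z := by
    rw [← QuotientGroup.eq_one_iff]
    simp only [QuotientGroup.mk_mul, QuotientGroup.mk_inv]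
    rw [← h]
    group
  obtain ⟨c, hcdef⟩ : ∃ c, g * u * g⁻¹ * u⁻¹ = c := ⟨_, rfl⟩
  rw [hcdef] at hc
  have h1 : g * u * g⁻¹ = c * u := by rw [← hcdef]; group
  have h2 : ∀ i : ℕ, g ^ i * u * (g ^ i)⁻¹ = c ^ i * u := by
    intro i
    induction i with
    | zero => simp
    | succ i ih =>
      have h3 : c ^ i * g = g * c ^ i := hZ _ (Z.pow_mem hc i) g
      calc g ^ (i + 1) * u * (g ^ (i + 1))⁻¹ = g * (g ^ i * u * (g ^ i)⁻¹) * g⁻¹ := by
            rw [pow_succ']; group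
        _ = g * (c ^ i * u) * g⁻¹ := by rw [ih]
        _ = c ^ i * (g * u * g⁻¹) := by rw [← mul_assoc g (c ^ i) u, ← h3]; group
        _ = c ^ (i + 1) * u := by rw [h1, ← mul_assoc, pow_succ]
  have h3 := h2 (orderOf g)
  rw [pow_orderOf_eq_one, one_mul, inv_one, mul_one] at h3
  have h4 : c ^ orderOf g = 1 := by
    have h5 : c ^ orderOf g * u = 1 * u := by rw [← h3, one_mul]
    exact mul_right_cancel h5
  obtain ⟨n, hn⟩ := hZ2 ⟨c, hc⟩
  have h6 : c ^ 2 ^ n = 1 := congrArg Subtype.val hn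
  have h7 : orderOf c ∣ 1 := by
    have h8 : Nat.Coprime (orderOf g) (2 ^ n) :=
      Nat.Coprime.pow_right n (Nat.coprime_two_right.2 hg)
    rw [← h8]
    exact Nat.dvd_gcd (orderOf_dvd_of_pow_eq_one h4) (orderOf_dvd_of_pow_eq_one h6)
  have h9 : c = 1 := orderOf_eq_one_iff.1 (Nat.dvd_one.1 h7)
  rw [h9, one_mul] at h1
  calc u * g = g * u * g⁻¹ * g := by rw [h1]
    _ = g * u := by group

end

/-- the statement of the extension theorem for blocks with one simple module -/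
def ExtStmt (k : Type) [Field k] : Prop :=
  ∀ {C R : Type} [Group C] [Finite C] [Group R] [Finite R] (φ : C →* R)
    (_ : IsPGroup 2 φ.ker) (_ : ∀ z ∈ φ.ker, ∀ c, z * c = c * z) (_ : φ.range.Normal)
    (_ : ∀ r : R, Odd (orderOf r) → r ∈ φ.range) (b : MonoidAlgebra k C) (_ : IsBlock b)
    (_ : SimpleQuot b),
    ∃ (f : MonoidAlgebra k R) (T : Finset R), IsBlock f ∧ Nonempty (SimpleQuot f) ∧
      f * MonoidAlgebra.mapDomain φ b = MonoidAlgebra.mapDomain φ b ∧
      f = ∑ r ∈ T, el k r * MonoidAlgebra.mapDomain φ b * el k r⁻¹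

section

variable {k : Type} [Field k] [CharP k 2] {G : Type} [Group G] [Fintype G]

/-- the data of the quotient at one subgroup -/
theorem side (hext : ExtStmt k) (D Z : Subgroup G) [Z.Normal]
    (hZ : ∀ z ∈ Z, ∀ g, z * g = g * z) (hZD : Z ≤ D) (hD : IsPGroup 2 D) (q : MonoidAlgebra k G)
    (hqD : Cen D q) (lam : MonoidAlgebra k G →ₗ[k] k)
    (hlam : ∀ a b, lam (a * b) = lam (b * a)) (hlq : lam q ≠ 0)
    (hnil : ∀ a, IsNilpotent a → lam a = 0) (hL : LocK D q) (Q' : Subgroup (G ⧸ Z))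
    (hQ' : Q' ≤ D.map (QuotientGroup.mk' Z)) (H' : Subgroup (G ⧸ Z))
    (hH' : H' = Subgroup.centralizer (Q' : Set (G ⧸ Z))) (Q : Subgroup G)
    (hQ : Q = Q'.comap (QuotientGroup.mk' Z)) (H : Subgroup G)
    (hH : H = Subgroup.centralizer (Q : Set G)) :
    ∃ (b : MonoidAlgebra k H) (f : MonoidAlgebra k H') (T : Finset H'), IsBlock b ∧
      res H q * b = res H q ∧ IsBlock f ∧ Nonempty (SimpleQuot f) ∧
      res H' (prR k Z q) * f = res H' (prR k Z q) ∧ res H' (prR k Z q) ≠ 0 ∧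
      incl k H' f * prR k Z (incl k H b) = prR k Z (incl k H b) ∧
      incl k H' f = ∑ r ∈ T, el k (r : G ⧸ Z) * prR k Z (incl k H b) * el k (r : G ⧸ Z)⁻¹ := by
  subst hH
  have hmem : ∀ u : G, u ∈ Q ↔ (u : G ⧸ Z) ∈ Q' := fun u => by rw [hQ]; rfl
  have hQD : Q ≤ D := by
    intro u hu
    exact (mem_map_mk Z D hZD u).1 (hQ' ((hmem u).1 hu))
  have hQ2 : IsPGroup 2 Q := IsPGroup.to_le hD hQD
  have hZ2 : IsPGroup 2 Z := IsPGroup.to_le hD hZD
  have hqQ : Cen Q q := fun u hu => hqD u (hQD hu)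
  have hHm : ∀ r ∈ H', ∀ u ∈ Q, (u : G ⧸ Z) * r = r * (u : G ⧸ Z) := by
    intro r hr u hu
    rw [hH'] at hr
    exact Subgroup.mem_centralizer_iff.1 hr _ ((hmem u).1 hu)
  have hph : ∀ x ∈ Subgroup.centralizer (Q : Set G), (x : G ⧸ Z) ∈ H' := by
    intro x hx
    rw [hH', Subgroup.mem_centralizer_iff]
    intro v hv
    obtain ⟨u, rfl⟩ := QuotientGroup.mk_surjective v
    have h1 := Subgroup.mem_centralizer_iff.1 hx u ((hmem u).2 hv)
    rw [← QuotientGroup.mk_mul, h1, QuotientGroup.mk_mul]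
  obtain ⟨b, hb, hqb, ⟨S⟩⟩ := hL.one Q hQD _ rfl
  have hres := res_prR Z Q hQ2 q hqQ H' hHm hph
  -- the hypotheses of the extension theorem
  have hkz : ∀ z ∈ (phi Z (Subgroup.centralizer (Q : Set G)) H' hph).ker, (z : G) ∈ Z := by
    intro z hz
    rw [MonoidHom.mem_ker] at hz
    have h1 := congrArg (Subtype.val) hz
    exact (QuotientGroup.eq_one_iff (z : G)).1 h1
  obtain ⟨f, T, hf, hSf, hfb, hfT⟩ := hext (phi Z (Subgroup.centralizer (Q : Set G)) H' hph)
    (by
      intro z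
      obtain ⟨n, hn⟩ := hZ2 ⟨((z : Subgroup.centralizer (Q : Set G)) : G), hkz z z.2⟩
      refine ⟨n, ?_⟩
      have h1 : (((z : Subgroup.centralizer (Q : Set G)) : G)) ^ 2 ^ n = 1 :=
        congrArg Subtype.val hn
      exact Subtype.ext (Subtype.ext h1))
    (by
      intro z hz c
      exact Subtype.ext (hZ _ (hkz z hz) c))
    (by
      constructor
      rintro _ ⟨c, rfl⟩ r
      obtain ⟨g, hg⟩ := QuotientGroup.mk_surjective (r : G ⧸ Z)
      have hc : g * (c : G) * g⁻¹ ∈ Subgroup.centralizer (Q : Set G) := by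
        rw [Subgroup.mem_centralizer_iff]
        intro u hu
        have h1 : g⁻¹ * u * g ∈ Q := by
          rw [hmem, QuotientGroup.mk_mul, QuotientGroup.mk_mul, QuotientGroup.mk_inv, hg,
            mul_assoc, hHm r r.2 u hu, inv_mul_cancel_left]
          exact (hmem u).1 hu
        have h2 := Subgroup.mem_centralizer_iff.1 c.2 _ h1
        calc u * (g * (c : G) * g⁻¹) = g * ((g⁻¹ * u * g) * c) * g⁻¹ := by group
          _ = g * (c * (g⁻¹ * u * g)) * g⁻¹ := by rw [h2]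
          _ = g * (c : G) * g⁻¹ * u := by group
      refine ⟨⟨_, hc⟩, Subtype.ext ?_⟩
      rw [phi_coe, Subgroup.coe_mul, Subgroup.coe_mul, Subgroup.coe_inv, phi_coe, ← hg]
      rfl)
    (by
      intro r hr
      have hr' : Odd (orderOf (r : G ⧸ Z)) := by rwa [Subgroup.orderOf_coe]
      obtain ⟨g, hg, hgo⟩ := exists_odd_lift Z (r : G ⧸ Z) hr'
      have hc : g ∈ Subgroup.centralizer (Q : Set G) := by
        rw [Subgroup.mem_centralizer_iff]
        intro u hu
        exact comm_of_odd Z hZ hZ2 g u hgo (by rw [hg]; exact hHm r r.2 u hu)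
      exact ⟨⟨g, hc⟩, Subtype.ext hg⟩)
    b hb S
  have hfb' : MonoidAlgebra.mapDomain (phi Z (Subgroup.centralizer (Q : Set G)) H' hph) b * f =
      MonoidAlgebra.mapDomain (phi Z (Subgroup.centralizer (Q : Set G)) H' hph) b := by
    rw [hf.2.2.1, hfb]
  refine ⟨b, f, T, hb, hqb, hf, hSf, ?_, ?_, ?_, ?_⟩
  · rw [hres]
    have h1 : MonoidAlgebra.mapDomain (phi Z (Subgroup.centralizer (Q : Set G)) H' hph)
        (res (Subgroup.centralizer (Q : Set G)) q) =
        MonoidAlgebra.mapDomain (phi Z (Subgroup.centralizer (Q : Set G)) H' hph)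
        (res (Subgroup.centralizer (Q : Set G)) q) *
        MonoidAlgebra.mapDomain (phi Z (Subgroup.centralizer (Q : Set G)) H' hph) b := by
      have h2 := map_mul (MonoidAlgebra.mapDomainRingHom k
        (phi Z (Subgroup.centralizer (Q : Set G)) H' hph))
        (res (Subgroup.centralizer (Q : Set G)) q) b
      rw [hqb] at h2
      exact h2
    rw [h1, mul_assoc, hfb']
  · intro h0
    apply hlq
    rw [lam_res Q hQ2 _ rfl lam hlam q hqQ]
    refine hnil _ (ker_nil Z hZ hZ2 _ ?_)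
    rw [← incl_phi Z _ H' hph, ← hres, h0, map_zero]
  · rw [← incl_phi Z _ H' hph, ← map_mul, hfb]
  · rw [← incl_phi Z _ H' hph]
    conv_lhs => rw [hfT]
    rw [map_sum]
    refine Finset.sum_congr rfl fun r _ => ?_
    rw [map_mul, map_mul, incl_el, incl_el]
    rfl

/-- conjugation between subgroups -/
noncomputable def conjSub (g : G) (H H2 : Subgroup G) (h : ∀ x, x ∈ H ↔ g * x * g⁻¹ ∈ H2) :
    H ≃* H2 where
  toFun c := ⟨g * c * g⁻¹, (h c).1 c.2⟩
  invFun c := ⟨g⁻¹ * c * g, (h _).2 (by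
    have h1 : g * (g⁻¹ * (c : G) * g) * g⁻¹ = c := by group
    rw [h1]
    exact c.2)⟩
  left_inv c := by
    apply Subtype.ext
    change g⁻¹ * (g * c * g⁻¹) * g = c
    group
  right_inv c := by
    apply Subtype.ext
    change g * (g⁻¹ * c * g) * g⁻¹ = c
    group
  map_mul' a b := by
    apply Subtype.ext
    change g * (a * b) * g⁻¹ = g * a * g⁻¹ * (g * b * g⁻¹)
    group

omit [CharP k 2] [Fintype G] in
theorem incl_tr_conjSub (g : G) (H H2 : Subgroup G) (h : ∀ x, x ∈ H ↔ g * x * g⁻¹ ∈ H2)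
    (a : MonoidAlgebra k H) :
    incl k _ (tr k (conjSub g H H2 h) a) = el k g * incl k _ a * el k g⁻¹ := by
  induction a using MonoidAlgebra.induction_linear with
  | zero => simp
  | add x y hx hy => simp only [map_add, hx, hy, mul_add, add_mul]
  | single c r =>
    rw [tr_single]
    simp only [incl, MonoidAlgebra.mapDomainRingHom_apply, MonoidAlgebra.mapDomain_single, el,
      MonoidAlgebra.single_mul_single]
    simp [conjSub]

/-- **P4**: the local data of the quotient by a central `2`-subgroup `Z ≤ D` -/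
theorem locK_quot_of (hext : ExtStmt k) (D Z : Subgroup G) [Z.Normal]
    (hZ : ∀ z ∈ Z, ∀ g, z * g = g * z) (hZD : Z ≤ D) (hD : IsPGroup 2 D) (q : MonoidAlgebra k G)
    (hqD : Cen D q) (lam : MonoidAlgebra k G →ₗ[k] k)
    (hlam : ∀ a b, lam (a * b) = lam (b * a)) (hlq : lam q ≠ 0)
    (hnil : ∀ a, IsNilpotent a → lam a = 0) (hL : LocK D q) :
    LocK (D.map (QuotientGroup.mk' Z)) (prR k Z q) := by
  have hZ2 : IsPGroup 2 Z := IsPGroup.to_le hD hZD
  constructor
  · intro Q' hQ' H' hH'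
    obtain ⟨b, f, T, hb, hqb, hf, hSf, h1, -, -, -⟩ := side hext D Z hZ hZD hD q hqD lam hlam hlq
      hnil hL Q' hQ' H' hH' _ rfl _ rfl
    exact ⟨f, hf, h1, hSf⟩
  · intro Q1' Q2' hQ1' hQ2' H1' H2' hH1' hH2' b1' b2' hb1' hb2' hqb1' hqb2' g' hg' hconj
    obtain ⟨Q1, hQ1⟩ : ∃ Q1, Q1 = Q1'.comap (QuotientGroup.mk' Z) := ⟨_, rfl⟩
    obtain ⟨Q2, hQ2⟩ : ∃ Q2, Q2 = Q2'.comap (QuotientGroup.mk' Z) := ⟨_, rfl⟩
    obtain ⟨H1, hH1⟩ : ∃ H1, H1 = Subgroup.centralizer (Q1 : Set G) := ⟨_, rfl⟩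
    obtain ⟨H2, hH2⟩ : ∃ H2, H2 = Subgroup.centralizer (Q2 : Set G) := ⟨_, rfl⟩
    obtain ⟨b1, f1, T1, hb1, hqb1, hf1, -, h1, h1n, h1b, h1T⟩ := side hext D Z hZ hZD hD q hqD
      lam hlam hlq hnil hL Q1' hQ1' H1' hH1' Q1 hQ1 H1 hH1
    obtain ⟨b2, f2, T2, hb2, hqb2, hf2, -, h2, h2n, h2b, h2T⟩ := side hext D Z hZ hZD hD q hqD
      lam hlam hlq hnil hL Q2' hQ2' H2' hH2' Q2 hQ2 H2 hH2
    have huniq : ∀ (H' : Subgroup (G ⧸ Z)) (b' f : MonoidAlgebra k H'), IsBlock b' → IsBlock f →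
        res H' (prR k Z q) * b' = res H' (prR k Z q) →
        res H' (prR k Z q) * f = res H' (prR k Z q) → res H' (prR k Z q) ≠ 0 → b' = f := by
      intro H' b' f hb' hf e1 e2 e3
      rcases blocks_mul hb' hf with h | h
      · exact h
      · exfalso
        apply e3
        rw [← e2, ← e1, mul_assoc, h, mul_zero]
    have e1 : b1' = f1 := huniq H1' b1' f1 hb1' hf1 hqb1' h1 h1n
    have e2 : b2' = f2 := huniq H2' b2' f2 hb2' hf2 hqb2' h2 h2n
    subst e1 e2
    have hmem1 : ∀ u : G, u ∈ Q1 ↔ (u : G ⧸ Z) ∈ Q1' := fun u => by rw [hQ1]; rfl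
    have hmem2 : ∀ u : G, u ∈ Q2 ↔ (u : G ⧸ Z) ∈ Q2' := fun u => by rw [hQ2]; rfl
    have hQD1 : Q1 ≤ D := fun u hu => (mem_map_mk Z D hZD u).1 (hQ1' ((hmem1 u).1 hu))
    have hQD2 : Q2 ≤ D := fun u hu => (mem_map_mk Z D hZD u).1 (hQ2' ((hmem2 u).1 hu))
    obtain ⟨g, rfl⟩ := QuotientGroup.mk_surjective g'
    have hgQ : ∀ u, u ∈ Q1 ↔ g * u * g⁻¹ ∈ Q2 := by
      intro u
      rw [hmem1, hmem2, hg' (u : G ⧸ Z), QuotientGroup.mk_mul, QuotientGroup.mk_mul,
        QuotientGroup.mk_inv]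
    -- conjugation and centralisers
    have hcen : ∀ (x : G) (A B : Subgroup G), (∀ u, u ∈ A ↔ x * u * x⁻¹ ∈ B) →
        ∀ c, c ∈ Subgroup.centralizer (A : Set G) ↔
          x * c * x⁻¹ ∈ Subgroup.centralizer (B : Set G) := by
      intro x A B hAB c
      rw [Subgroup.mem_centralizer_iff, Subgroup.mem_centralizer_iff]
      constructor
      · intro h v hv
        have h3 : x⁻¹ * v * x ∈ A := (hAB _).2 (by
          have : x * (x⁻¹ * v * x) * x⁻¹ = v := by group
          rw [this]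
          exact hv)
        have h4 := h _ h3
        calc v * (x * c * x⁻¹) = x * ((x⁻¹ * v * x) * c) * x⁻¹ := by group
          _ = x * (c * (x⁻¹ * v * x)) * x⁻¹ := by rw [h4]
          _ = x * c * x⁻¹ * v := by group
      · intro h u hu
        have h4 := h _ ((hAB u).1 hu)
        calc u * c = x⁻¹ * ((x * u * x⁻¹) * (x * c * x⁻¹)) * x := by group
          _ = x⁻¹ * ((x * c * x⁻¹) * (x * u * x⁻¹)) * x := by rw [h4]
          _ = c * u := by group
    have hgH : ∀ c, c ∈ H1 ↔ g * c * g⁻¹ ∈ H2 := by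
      rw [hH1, hH2]
      exact hcen g Q1 Q2 hgQ
    have hsQ : ∀ s : G, (s : G ⧸ Z) ∈ H2' → ∀ u, u ∈ Q2 ↔ s * u * s⁻¹ ∈ Q2 := by
      intro s hs u
      rw [hmem2, hmem2, QuotientGroup.mk_mul, QuotientGroup.mk_mul, QuotientGroup.mk_inv]
      rw [hH2', Subgroup.mem_centralizer_iff] at hs
      constructor
      · intro hu
        have h4 := hs _ hu
        rw [← h4, mul_inv_cancel_right]
        exact hu
      · intro hu
        have h4 := hs _ hu
        have h5 : (u : G ⧸ Z) = (s : G ⧸ Z) * u * (s : G ⧸ Z)⁻¹ := by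
          have h6 : (s : G ⧸ Z) * u = s * (s * u * (s : G ⧸ Z)⁻¹) := by
            rw [← h4]; group
          have h7 := mul_left_cancel h6
          exact h7
        rw [h5]
        exact hu
    -- some conjugate of `b2` meets the conjugate of `b1`
    obtain ⟨s, hs, hne⟩ : ∃ s : G, (s : G ⧸ Z) ∈ H2' ∧
        (el k g * incl k H1 b1 * el k g⁻¹) * (el k s * incl k H2 b2 * el k s⁻¹) ≠ 0 := by
      by_contra hcon
      push Not at hcon
      obtain ⟨c1, hc1⟩ : ∃ c1, el k g * incl k H1 b1 * el k g⁻¹ = c1 := ⟨_, rfl⟩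
      rw [hc1] at hcon
      have hp1 : prR k Z c1 = el k (g : G ⧸ Z) * prR k Z (incl k H1 b1) * el k (g : G ⧸ Z)⁻¹ := by
        rw [← hc1, map_mul, map_mul, prR_el, prR_el]
        rfl
      have h0 : prR k Z c1 * incl k H2' b2' = 0 := by
        rw [h2T, Finset.mul_sum]
        refine Finset.sum_eq_zero fun r _ => ?_
        obtain ⟨s, hs⟩ := QuotientGroup.mk_surjective (r : G ⧸ Z)
        have h3 := congrArg (prR k Z) (hcon s (by rw [hs]; exact r.2))
        rw [map_mul, map_mul, map_mul, prR_el, prR_el, map_zero] at h3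
        rw [← hs]
        exact h3
      have h3 : prR k Z c1 * incl k H2' b2' = prR k Z c1 := by
        have hcomm : prR k Z (incl k H1 b1) * incl k H1' b1' = prR k Z (incl k H1 b1) := by
          have hph : ∀ x ∈ H1, (x : G ⧸ Z) ∈ H1' := by
            intro x hx
            rw [hH1', Subgroup.mem_centralizer_iff]
            intro v hv
            obtain ⟨u, rfl⟩ := QuotientGroup.mk_surjective v
            rw [hH1] at hx
            have h5 := Subgroup.mem_centralizer_iff.1 hx u ((hmem1 u).2 hv)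
            rw [← QuotientGroup.mk_mul, h5, QuotientGroup.mk_mul]
          rw [← incl_phi Z H1 H1' hph] at h1b ⊢
          rw [← map_mul, hb1'.2.2.1, map_mul]
          exact h1b
        have hi : el k (g : G ⧸ Z)⁻¹ * el k (g : G ⧸ Z) = 1 := D3aux.el_inv_mul _
        rw [← hconj, hp1]
        calc el k (g : G ⧸ Z) * prR k Z (incl k H1 b1) * el k (g : G ⧸ Z)⁻¹ *
              (el k (g : G ⧸ Z) * incl k H1' b1' * el k (g : G ⧸ Z)⁻¹)
            = el k (g : G ⧸ Z) * prR k Z (incl k H1 b1) *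
              (el k (g : G ⧸ Z)⁻¹ * el k (g : G ⧸ Z)) * incl k H1' b1' *
              el k (g : G ⧸ Z)⁻¹ := by noncomm_ring
          _ = el k (g : G ⧸ Z) * (prR k Z (incl k H1 b1) * incl k H1' b1') *
              el k (g : G ⧸ Z)⁻¹ := by rw [hi]; noncomm_ring
          _ = _ := by rw [hcomm]
      have h4 : IsNilpotent c1 := ker_nil Z hZ hZ2 c1 (by rw [← h3, h0])
      have h5 : c1 * c1 = c1 := by
        have hi : el k g⁻¹ * el k g = 1 := D3aux.el_inv_mul g
        rw [← hc1]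
        calc el k g * incl k H1 b1 * el k g⁻¹ * (el k g * incl k H1 b1 * el k g⁻¹)
            = el k g * incl k H1 b1 * (el k g⁻¹ * el k g) * incl k H1 b1 * el k g⁻¹ := by
              noncomm_ring
          _ = el k g * (incl k H1 b1 * incl k H1 b1) * el k g⁻¹ := by rw [hi]; noncomm_ring
          _ = _ := by rw [← map_mul, hb1.2.1]
      have h6 : c1 = 0 := by
        obtain ⟨n, hn⟩ := h4
        have h7 : ∀ m : ℕ, c1 ^ (m + 1) = c1 := by
          intro m
          induction m with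
          | zero => rw [zero_add, pow_one]
          | succ m ih => rw [pow_succ, ih, h5]
        rw [← h7 n, pow_succ, hn, zero_mul]
      apply hb1.1
      apply D3aux.incl_injective H1
      rw [map_zero]
      have h8 : incl k H1 b1 = el k g⁻¹ * c1 * el k g := by
        rw [← hc1]
        have hi : el k g⁻¹ * el k g = 1 := D3aux.el_inv_mul g
        calc incl k H1 b1 = 1 * incl k H1 b1 * 1 := by rw [one_mul, mul_one]
          _ = (el k g⁻¹ * el k g) * incl k H1 b1 * (el k g⁻¹ * el k g) := by rw [hi]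
          _ = _ := by noncomm_ring
      rw [h8, h6, mul_zero, zero_mul]
    -- hence they are equal
    have hsH : ∀ c, c ∈ H2 ↔ s * c * s⁻¹ ∈ H2 := by
      rw [hH2]
      exact hcen s Q2 Q2 (hsQ s hs)
    have hgs : el k g * incl k H1 b1 * el k g⁻¹ = el k s * incl k H2 b2 * el k s⁻¹ := by
      rw [← incl_tr_conjSub g H1 H2 hgH, ← incl_tr_conjSub s H2 H2 hsH] at hne ⊢
      rcases blocks_mul (tr_block (conjSub g H1 H2 hgH) hb1)
        (tr_block (conjSub s H2 H2 hsH) hb2) with h | h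
      · rw [h]
      · exfalso
        apply hne
        rw [← map_mul, h, map_zero]
    -- the element `s⁻¹ g`
    have hx : ∀ u, u ∈ Q1 ↔ (s⁻¹ * g) * u * (s⁻¹ * g)⁻¹ ∈ Q2 := by
      intro u
      rw [hgQ u]
      have h5 := hsQ s hs ((s⁻¹ * g) * u * (s⁻¹ * g)⁻¹)
      have h6 : s * ((s⁻¹ * g) * u * (s⁻¹ * g)⁻¹) * s⁻¹ = g * u * g⁻¹ := by group
      rw [h6] at h5
      exact h5.symm
    have hconj2 : el k (s⁻¹ * g) * incl k H1 b1 * el k (s⁻¹ * g)⁻¹ = incl k H2 b2 := by
      have hi : el k s⁻¹ * el k s = 1 := D3aux.el_inv_mul s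
      have h5 : (s⁻¹ * g)⁻¹ = g⁻¹ * s := by group
      rw [h5, el_mul, el_mul]
      calc el k s⁻¹ * el k g * incl k H1 b1 * (el k g⁻¹ * el k s)
          = el k s⁻¹ * (el k g * incl k H1 b1 * el k g⁻¹) * el k s := by noncomm_ring
        _ = el k s⁻¹ * (el k s * incl k H2 b2 * el k s⁻¹) * el k s := by rw [hgs]
        _ = (el k s⁻¹ * el k s) * incl k H2 b2 * (el k s⁻¹ * el k s) := by noncomm_ring
        _ = incl k H2 b2 := by rw [hi, one_mul, mul_one]
    obtain ⟨d, hd, hdu⟩ := hL.fus Q1 Q2 hQD1 hQD2 H1 H2 hH1 hH2 b1 b2 hb1 hb2 hqb1 hqb2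
      (s⁻¹ * g) hx hconj2
    refine ⟨(d : G ⧸ Z), ⟨d, hd, rfl⟩, ?_⟩
    intro v hv
    obtain ⟨u, rfl⟩ := QuotientGroup.mk_surjective v
    have h5 := congrArg (fun x : G => (x : G ⧸ Z)) (hdu u ((hmem1 u).2 hv))
    simp only [QuotientGroup.mk_mul, QuotientGroup.mk_inv] at h5
    rw [h5]
    have h6 : (g : G ⧸ Z) * u * (g : G ⧸ Z)⁻¹ ∈ Q2' := (hg' _).1 hv
    rw [hH2', Subgroup.mem_centralizer_iff] at hs
    have h7 := hs _ h6
    have h8 : (s : G ⧸ Z)⁻¹ * ((g : G ⧸ Z) * u * (g : G ⧸ Z)⁻¹) * s =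
        (g : G ⧸ Z) * u * (g : G ⧸ Z)⁻¹ := by
      rw [mul_assoc, h7, inv_mul_cancel_left]
    rw [← h8]
    group

end

end Pool.Agent.Helper66.NO
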